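import Pool.Agent.H77.Nfb

open Pool.Agent.H77.Nfb

theorem Pool.Agent.Results.MP_c03fb1_al.ThreeDim.result (K : Type) [Field K] [Infinite K] :
    ∃ (R : Type) (_ : NonUnitalNonAssocRing R) (_ : Module K R) (_ : IsScalarTower K R R)
      (_ : SMulCommClass K R R), Module.finrank K R = 3 ∧ ¬ FinBased K R :=
  ⟨Alg (mR K), inferInstance, inferInstance, inferInstance, inferInstance,
    (by simp : Module.finrank K (K × K × K) = 3), main K⟩
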